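import Pool.Agent.Q82.KR.Fin

set_option autoImplicit false

/-! # Sharp mean-variance bounds for `k`-th records from symmetric parents (MP_d11fee_pr, Q1)

Let `k ≥ 2`, `n ≥ 1`, `f` the density of the `n`-th `k`-th record value of the uniform distribution
and `φ(x) = f(x) - f(1-x)`. The supremum `D^s(k,n)` of `(E R - μ) / σ` over all symmetric laws with
continuous distribution function and finite positive variance is

* `0` if `∑_{j ≤ n} (k ln 2)^j / j! ≤ 2^(k-1)`;
* `√((∫_{1/2}^α φ² + (1 - α) φ(α)²) / 2)` otherwise, where `α` is the unique point of `(1/2, 1)` with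
  `φ(α) > 0` and `(1 - α) φ(α) = ∫_α^1 φ`. -/

namespace Pool.Agent.Results.MP_d11fee_pr.SymmetricParents

open Pool.Agent.Q82.KR Set

/-- the equation for `α` -/
def IsRoot (k n : ℕ) (α : ℝ) : Prop :=
  α ∈ Ioo (1 / 2 : ℝ) 1 ∧ 0 < φ k n α ∧ (1 - α) * φ k n α = ∫ x in α..1, φ k n x

theorem result (k n : ℕ) (hk : 2 ≤ k) (hn : 1 ≤ n) :
    ((∑ j ∈ Finset.range (n + 1), (k * Real.log 2) ^ j / (j.factorial : ℝ)) ≤ 2 ^ (k - 1) →
      IsLUB (values k n) 0) ∧
    ((2 : ℝ) ^ (k - 1) < ∑ j ∈ Finset.range (n + 1), (k * Real.log 2) ^ j / (j.factorial : ℝ) →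
      ∃ α, IsRoot k n α ∧ (∀ β, IsRoot k n β → β = α) ∧
        IsLUB (values k n)
          (√(((∫ x in (1 / 2 : ℝ)..α, φ k n x ^ 2) + (1 - α) * φ k n α ^ 2) / 2))) := by
  constructor
  · intro h
    apply isLUB_zero hk hn
    rw [integral_φ_pos_iff hk]
    exact not_lt.2 h
  · intro h
    rw [← integral_φ_pos_iff hk] at h
    obtain ⟨α, hα, hu⟩ := (uni_φ hk hn).existsUnique h
    exact ⟨α, hα, fun β hβ => hu β hβ, isLUB_pos hk hn hα.1 hα.2.1 hα.2.2⟩

end Pool.Agent.Results.MP_d11fee_pr.SymmetricParents
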